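import Pool.Agent.COV.StmtsB

set_option autoImplicit false

namespace Pool.Agent.COV.H32

open Polynomial Pool.Agent.KDT.Z

/-- the symmetric functions of the two points -/
theorem pts_sum {F : Type} [Field F] {f : F[X]} {q : Fin 4 → F} {z w : Pt f} (h : Pts q z w) :
    q 0 = z.a + w.a ∧ q 1 = z.a * w.a := by
  have e0 := congrArg (Polynomial.eval 0) h.1
  have e1 := congrArg (Polynomial.eval 1) h.1
  simp [pA] at e0 e1
  refine ⟨?_, e0⟩
  rw [e0] at e1
  linear_combination -e1

/-- the two points are unique up to order -/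
theorem pts_unique {F : Type} [Field F] {f : F[X]} {q : Fin 4 → F} {z w z' w' : Pt f}
    (h : Pts q z w) (h' : Pts q z' w') :
    (z'.a = z.a ∧ z'.b = z.b ∧ w'.a = w.a ∧ w'.b = w.b) ∨
      (z'.a = w.a ∧ z'.b = w.b ∧ w'.a = z.a ∧ w'.b = z.b) := by
  obtain ⟨s1, p1⟩ := pts_sum h
  obtain ⟨s2, p2⟩ := pts_sum h'
  have e : (z'.a - z.a) * (z'.a - w.a) = 0 := by
    have : (z'.a - z.a) * (z'.a - w.a) = z'.a * z'.a - (z.a + w.a) * z'.a + z.a * w.a := by ring
    rw [this, ← s1, ← p1, s2, p2]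
    ring
  rcases mul_eq_zero.mp e with e | e
  · have hz : z'.a = z.a := sub_eq_zero.mp e
    have hw : w'.a = w.a := by
      have := s2.symm.trans s1
      rw [hz] at this
      exact add_left_cancel this
    refine Or.inl ⟨hz, ?_, hw, ?_⟩
    · rw [← h'.2.1, ← h.2.1, hz]
    · rw [← h'.2.2, ← h.2.2, hw]
  · have hz : z'.a = w.a := sub_eq_zero.mp e
    have hw : w'.a = z.a := by
      have := s2.symm.trans s1
      rw [hz, add_comm z.a w.a] at this
      exact add_left_cancel this
    refine Or.inr ⟨hz, ?_, hw, ?_⟩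
    · rw [← h'.2.1, ← h.2.2, hz]
    · rw [← h'.2.2, ← h.2.1, hw]

section two

variable {k U : Type} [Field k] [Field U] [Algebra k U]

theorem om_congr (d : Derivation k U U) (s : k[X]) {g : U[X]} {z z' : Pt g} (ha : z'.a = z.a)
    (hb : z'.b = z.b) : om d s z' = om d s z := by
  unfold om
  rw [ha, hb]

/-- the image of a point -/
theorem eval_aut {f : k[X]} {g : U[X]} (hg : g = f.map (algebraMap k U)) (σ : U ≃ₐ[k] U) (a : U) :
    g.eval (σ a) = σ (g.eval a) := by
  subst hg
  rw [Polynomial.eval_map_algebraMap, Polynomial.eval_map_algebraMap]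
  exact Polynomial.aeval_algHom_apply σ.toAlgHom a f

/-- the image of a point -/
def sg {f : k[X]} {g : U[X]} (hg : g = f.map (algebraMap k U)) (σ : U ≃ₐ[k] U) (z : Pt g) : Pt g :=
  ⟨σ z.a, σ z.b, by rw [eval_aut hg, ← z.on, map_pow]⟩

theorem pts_sg {f : k[X]} {g : U[X]} (hg : g = f.map (algebraMap k U)) (σ : U ≃ₐ[k] U)
    {q : Fin 4 → U} {z w : Pt g} (h : Pts q z w) :
    Pts (fun i => σ (q i)) (sg hg σ z) (sg hg σ w) := by
  refine ⟨?_, ?_, ?_⟩
  · have e := congrArg (Polynomial.map (σ : U →+* U)) h.1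
    have e1 : (pA q).map (σ : U →+* U) = pA (fun i => σ (q i)) := by
      simp [pA]
    rw [← e1, e]
    simp [sg]
  · have e := congrArg σ h.2.1
    show (pB fun i => σ (q i)).eval (σ z.a) = σ z.b
    rw [← e]
    simp [pB]
  · have e := congrArg σ h.2.2
    show (pB fun i => σ (q i)).eval (σ w.a) = σ w.b
    rw [← e]
    simp [pB]

theorem om_sg {f : k[X]} {g : U[X]} (hg : g = f.map (algebraMap k U)) (σ : U ≃ₐ[k] U)
    (d : Derivation k U U) (u : U) (hu : ∀ a, d (σ a) = u * σ (d a)) (s : k[X]) (z : Pt g) :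
    om d s (sg hg σ z) = u * σ (om d s z) := by
  unfold om
  show aeval (σ z.a) s * d (σ z.a) / σ z.b = _
  rw [hu, map_div₀, map_mul]
  have : aeval (σ z.a) s = σ (aeval z.a s) := Polynomial.aeval_algHom_apply σ.toAlgHom z.a s
  rw [this]
  ring

/-- a root of a polynomial over k is in k -/
theorem root_range [IsAlgClosed k] (t : Fin 4 → k) {g : U[X]} {z w : Pt g}
    (h : Pts (emb U t) z w) : z.a ∈ (algebraMap k U).range ∧ w.a ∈ (algebraMap k U).range := by
  obtain ⟨s1, p1⟩ := pts_sum h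
  have hk : ∀ x : U, x ^ 2 - algebraMap k U (t 0) * x + algebraMap k U (t 1) = 0 →
      x ∈ (algebraMap k U).range := by
    intro x hx
    have hne : (X ^ 2 - C (t 0) * X + C (t 1) : k[X]) ≠ 0 := by
      intro h0
      have := congrArg (fun P : k[X] => P.coeff 2) h0
      simp at this
    have hsp := IsAlgClosed.splits (X ^ 2 - C (t 0) * X + C (t 1) : k[X])
    have hroot : aeval x (X ^ 2 - C (t 0) * X + C (t 1) : k[X]) = 0 := by
      simp
      exact hx
    have hint : IsIntegral k x := by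
      refine (isAlgebraic_iff_isIntegral).mp ⟨_, hne, hroot⟩
    have hmem : x ∈ (⊥ : IntermediateField k U) := by
      have h2 : (minpoly k x).degree = 1 :=
        IsAlgClosed.degree_eq_one_of_irreducible k (minpoly.irreducible hint)
      exact minpoly.mem_range_of_degree_eq_one k x h2
    obtain ⟨y, hy⟩ := IntermediateField.mem_bot.mp hmem
    exact ⟨y, hy⟩
  have e0 : algebraMap k U (t 0) = z.a + w.a := s1
  have e1 : algebraMap k U (t 1) = z.a * w.a := p1
  refine ⟨hk _ ?_, hk _ ?_⟩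
  · rw [e0, e1]; ring
  · rw [e0, e1]; ring

theorem om_zero (d : Derivation k U U) (hd : ∀ u : U, d u = 0 ↔ u ∈ (algebraMap k U).range)
    (s : k[X]) {g : U[X]} {z : Pt g} (h : z.a ∈ (algebraMap k U).range) : om d s z = 0 := by
  unfold om
  rw [(hd z.a).mpr h]
  simp

/-- infinitely many images of a finite vector: the fixed element is in k -/
theorem fixed_range {f : k[X]} {g : U[X]} (he : Env k U f g) (ρ : U) {J : Type} [AddCommGroup J]
    (cl : (Fin 4 → U) → J) (q : Fin 4 → U) (S : Set J) (hS : S.Infinite)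
    (h : ∀ x ∈ S, ∃ σ : U ≃ₐ[k] U, σ ρ = ρ ∧ cl (fun i => σ (q i)) = cl q + x) :
    ρ ∈ (algebraMap k U).range := by
  by_contra hρ
  have halg := he.td ρ hρ
  classical
  choose! σ h1 h2 using h
  let K := IntermediateField.adjoin k {ρ}
  have hfix : ∀ x ∈ S, ∀ y ∈ K, σ x y = y := by
    intro x hx y hy
    have hle : K ≤ IntermediateField.fixedField (Subgroup.zpowers (σ x)) := by
      rw [IntermediateField.adjoin_simple_le_iff]
      rw [IntermediateField.mem_fixedField_iff]
      intro τ hτ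
      obtain ⟨n, rfl⟩ := Subgroup.mem_zpowers_iff.mp hτ
      have : σ x ∈ MulAction.stabilizer (U ≃ₐ[k] U) ρ := by
        rw [MulAction.mem_stabilizer_iff]
        exact h1 x hx
      exact (Subgroup.zpow_mem _ this n)
    exact (IntermediateField.mem_fixedField_iff _ _).mp (hle hy) (σ x) (Subgroup.mem_zpowers _)
  -- the finite set of the possible images
  let T : Set (Fin 4 → U) := Set.pi Set.univ fun i => (minpoly K (q i)).rootSet U
  have hT : T.Finite := Set.Finite.pi (fun i => Polynomial.rootSet_finite _ _)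
  have hmaps : Set.MapsTo (fun x => fun i => σ x (q i)) S T := by
    intro x hx i _
    have hq : IsIntegral K (q i) := (halg.isAlgebraic (q i)).isIntegral
    let τ : U →ₐ[K] U :=
      { (σ x : U →+* U) with
        commutes' := fun y => hfix x hx y.1 y.2 }
    have hroot : aeval (τ (q i)) (minpoly K (q i)) = 0 := by
      rw [Polynomial.aeval_algHom_apply, minpoly.aeval, map_zero]
    exact (Polynomial.mem_rootSet).mpr ⟨minpoly.ne_zero hq, hroot⟩
  have hinj : Set.InjOn (fun x => fun i => σ x (q i)) S := by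
    intro x hx y hy hxy
    have e1 := h2 x hx
    have e2 := h2 y hy
    have : (fun i => σ x (q i)) = fun i => σ y (q i) := hxy
    rw [this, e2] at e1
    exact (add_left_cancel e1).symm
  exact (Set.Finite.of_injOn hmaps hinj hT).not_infinite hS

end two

theorem inv (h1 : PrsStmt) (h2 : GhiStmt) (h3 : GnlStmt) (h4 : Ab2Stmt) (_h5 : EmbStatement)
    (h6 : CmaStatement) : InvStmt := by
  intro k U _ _ _ f g J _ th cl act Jk q H0 t0 hc d hd
  have : IsAlgClosed k := hc.env.kc
  have : IsAlgClosed U := hc.env.oc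
  have : CharZero k := hc.env.ch
  have : CharZero U := charZero_of_injective_algebraMap (algebraMap k U).injective
  have hJ : JG g J th cl := hc.jk.toJG
  obtain ⟨z, w, hzw, hcl⟩ := (h1 U g J th cl hJ).1 q hc.on
  -- reduction to the points z, w
  suffices H : ∃ s : k[X], s ≠ 0 ∧ s.natDegree ≤ 1 ∧ om d s z + om d s w = 0 by
    obtain ⟨s, s0, s1, hs⟩ := H
    refine ⟨s, s0, s1, ?_⟩
    intro z' w' h'
    rcases pts_unique hzw h' with ⟨e1, e2, e3, e4⟩ | ⟨e1, e2, e3, e4⟩
    · rw [om_congr d s e1 e2, om_congr d s e3 e4, hs]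
    · rw [om_congr d s e1 e2, om_congr d s e3 e4, add_comm, hs]
  -- the infinite set
  obtain ⟨B, hB⟩ := h2 U g J th cl hJ 0 q hc.on
  have hGn : Gn th H0 fun h => KDT.Z.Good g cl (0 + h) q := ⟨B, fun h _ hh => hB h hh⟩
  have hinf := ((h3 U g J th cl hJ H0).2.2.2) hc.inf _ hGn
  -- the automorphisms
  have key : ∀ h ∈ {h : J | h ∈ H0 ∧ KDT.Z.Good g cl (0 + h) q}, ∃ σ : U ≃ₐ[k] U,
      cl (fun i => σ (q i)) = cl q + h ∧ ∃ u : U, u ≠ 0 ∧ ∀ s : k[X], s.natDegree ≤ 1 →
        om d s z + om d s w = u * σ (om d s z + om d s w) := by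
    intro h hh
    obtain ⟨hh0, x, hx, hhx, hr, hro⟩ := hh
    rw [zero_add] at hhx
    obtain ⟨hk, σ, hσ⟩ := (hc.h0 h).mp hh0
    obtain ⟨t, ht1, ht2, ht3⟩ : ∃ t : Fin 4 → k, On f t ∧ On g (emb U t) ∧ h = cl (emb U t) := by
      rcases (hc.jk.mem_k h).mp hk with h0 | ⟨z0, _, h0⟩ | h0
      · exact absurd (hhx.symm.trans h0) (hJ.cl_ne x hx)
      · exact absurd (hhx.symm.trans h0) (hJ.cl_th x z0 hx)
      · exact h0
    have hxt : x = emb U t := hJ.cl_inj x _ hx ht2 (hhx.symm.trans ht3)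
    subst hxt
    have hsym := h6.1 U q (emb U t)
    have hr' : rr q (emb U t) ≠ 0 := by rw [hsym.1]; exact hr
    have hro' : ro q (emb U t) ≠ 0 := by rw [hsym.2]; exact hro
    obtain ⟨hc1, hc2⟩ := hJ.comp q (emb U t) hc.on ht2 hr' hro'
    obtain ⟨ha1, ha2⟩ := hc.jk.act_cl σ q hc.on
    have hclσ : cl (fun i => σ (q i)) = cl q + h := by rw [← ha2, hσ]
    have hcmp : cmp (g.coeff 4) q (emb U t) = fun i => σ (q i) := by
      refine hJ.cl_inj _ _ hc1 ha1 ?_
      rw [← hc2, hclσ, ht3]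
    obtain ⟨u, hu0, hu⟩ := hd.2 σ
    refine ⟨σ, hclσ, u, hu0, ?_⟩
    intro s hs
    obtain ⟨z', w', hz', _⟩ := (h1 U g J th cl hJ).1 (emb U t) ht2
    have hA := h4 k U f g hc.env d s q (emb U t) hs hc.on ht2 hr' hro' z w z' w'
      (sg hc.env.gm σ z) (sg hc.env.gm σ w) hzw hz' (by
        rw [hcmp]
        exact pts_sg hc.env.gm σ hzw)
    obtain ⟨r1, r2⟩ := root_range t hz'
    rw [om_zero d hd.1 s r1, om_zero d hd.1 s r2, add_zero, add_zero,
      om_sg hc.env.gm σ d u hu, om_sg hc.env.gm σ d u hu, ← mul_add, ← map_add] at hA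
    exact hA
  by_cases hW : om d (1 : k[X]) z + om d (1 : k[X]) w = 0
  · exact ⟨1, one_ne_zero, by simp, hW⟩
  -- the quotient
  have hρ : (om d (X : k[X]) z + om d (X : k[X]) w) / (om d (1 : k[X]) z + om d (1 : k[X]) w) ∈
      (algebraMap k U).range := by
    refine fixed_range hc.env _ cl q _ hinf ?_
    intro h hh
    obtain ⟨σ, e1, u, hu0, e2⟩ := key h hh
    refine ⟨σ, ?_, e1⟩
    have a1 := e2 1 (by simp)
    have a2 := e2 X (by simp)
    generalize om d (1 : k[X]) z + om d (1 : k[X]) w = W0 at a1 hW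
    generalize om d (X : k[X]) z + om d (X : k[X]) w = W1 at a2
    have hσ : σ W0 ≠ 0 := by
      intro h0
      rw [h0, mul_zero] at a1
      exact hW a1
    rw [map_div₀, div_eq_div_iff hσ hW]
    have : u * (σ W1 * W0) = u * (W1 * σ W0) := by
      calc u * (σ W1 * W0) = (u * σ W1) * W0 := by ring
        _ = W1 * W0 := by rw [← a2]
        _ = W1 * (u * σ W0) := by rw [← a1]
        _ = u * (W1 * σ W0) := by ring
    exact mul_left_cancel₀ hu0 this
  obtain ⟨r, hr⟩ := hρ
  refine ⟨X - C r, X_sub_C_ne_zero r, (natDegree_X_sub_C r).le, ?_⟩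
  have e1 : om d (X - C r) z = om d X z - algebraMap k U r * om d 1 z := by
    unfold om
    simp
    ring
  have e2 : om d (X - C r) w = om d X w - algebraMap k U r * om d 1 w := by
    unfold om
    simp
    ring
  rw [e1, e2, hr]
  field_simp
  ring

end Pool.Agent.COV.H32
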